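import Pool.Agent.Helper51_Fine.ScatA

/-!
SCAT: the alternating sum of the resolvents.
-/

namespace Pool.Agent.H16F.H51

open MeasureTheory Complex Filter Topology Pool.Agent.H16Iso Pool.Agent.H62T Pool.Agent.H16F
open scoped ENNReal NNReal ContDiff

/-- the incoming waves -/
noncomputable def FF (κ : ℝ) (S S' : ℝ → ℂ → ℝ) : Bool → ℝ → ℂ → ℝ
  | true => Sr κ S'
  | false => Sl κ S

/-- the kernels -/
noncomputable def qq (β β' : ℝ) : Bool → ℝ → ℝ → ℝ
  | true => bb β'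
  | false => bb β

/-- the weight -/
noncomputable def Wt (a : ℝ) (y : ℂ) : ℝ := Real.exp (-(a * ‖y - 0‖)) + Real.exp (-(a * ‖y - 1‖))

lemma Wt_memLp {a : ℝ} (ha : 0 < a) : MemLp (Wt a) 2 volume :=
  (memLp_exp_norm ha 0).add (memLp_exp_norm ha 1)

lemma Wt_nonneg (a : ℝ) (y : ℂ) : 0 ≤ Wt a y :=
  add_nonneg (Real.exp_pos _).le (Real.exp_pos _).le

lemma test_split {D : Set ℂ} {φ : ℂ → ℝ} (hφ : φ ∈ Test D) (k : ℝ) {F : ℝ → ℂ → ℝ}
    (mF : Measurable (Function.uncurry F)) {c : ℝ → ℝ} (mc : Measurable c)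
    (hfin : ∫⁻ w in Set.Ioi (0 : ℝ), ENNReal.ofReal |c w| * eLpNorm (F w) 2 volume < ⊤)
    (h0 : ∀ w, 0 < w → ∫ x, F w x * (k ^ 2 * φ x - lap φ x) = 0) :
    ∫ x, (∫ w in Set.Ioi (0 : ℝ), c w * F w x) * (k ^ 2 * φ x - lap φ x) = 0 := by
  have h1 := swapR (test_memLp hφ k) mF mc hfin
  calc ∫ x, (∫ w in Set.Ioi (0 : ℝ), c w * F w x) * (k ^ 2 * φ x - lap φ x)
      = ∫ x, (k ^ 2 * φ x - lap φ x) * ∫ w in Set.Ioi (0 : ℝ), c w * F w x :=
        integral_congr_ae (ae_of_all _ fun x => mul_comm _ _)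
    _ = ∫ w in Set.Ioi (0 : ℝ), c w * ∫ x, (k ^ 2 * φ x - lap φ x) * F w x := h1
    _ = ∫ w in Set.Ioi (0 : ℝ), (0 : ℝ) := by
        refine setIntegral_congr_fun measurableSet_Ioi fun w hw => ?_
        have : ∫ x, (k ^ 2 * φ x - lap φ x) * F w x = 0 := by
          rw [← h0 w hw]
          exact integral_congr_ae (ae_of_all _ fun x => mul_comm _ _)
        simp only [this, mul_zero]
    _ = 0 := by simp

lemma scat_core (hG : GrbStatement) (hR : ResStatement) (hGr : GreenStatement)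
    {β β' : ℝ} {S S' : ℝ → ℂ → ℝ} (hβ0 : 0 < β) (hβ : β < Real.pi / 3) (hβ0' : 0 < β')
    (hβ' : β' < Real.pi / 3) (hS : WP β S) (hS' : WP β' S') {g1 g2 : ℝ → ℂ → ℂ} {A c : ℝ}
    (hW : WC S g1 A c) (hW' : WC S' g2 A c) {κ K : ℝ} (hk : 0 < κ)
    (hI : ItH (FF κ S S') (qq β β') κ A A K (Wt (c * κ))) {Z : Bool → ℝ → ℂ → ℝ}
    (mZ : ∀ b, Measurable (Function.uncurry (Z b)))
    (bZ : ∀ b u, 0 < u → ∀ y, |Z b u y| ≤ 2 * A * Real.exp (A * u) * Wt (c * κ) y)
    (eZ : ∀ b u, 0 < u → ∀ y, Z b u y = FF κ S S' b u y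
      - ∫ w in Set.Ioi (0 : ℝ), qq β β' b u w * ep κ w * Z (!b) w y)
    {f : ℂ → ℝ} (mf : Measurable f) (hf : MemLp f 2 volume) {uH u1 u2 uO : ℂ → ℝ}
    (hH : Sol κ Hh f uH) (h1 : Sol κ (W1 β) f u1) (h2 : Sol κ (W2 β') f u2)
    (hO : Sol κ (Om β β') f uO) :
    ∀ᵐ x, uO x - u1 x - u2 x + uH x
      = 1 / Real.pi * ∫ u in Set.Ioi (0 : ℝ), ep κ u *
        (Sl κ S u x * (∫ y, Z true u y * f y) + Sr κ S' u x * (∫ y, Z false u y * f y)) := by
  have hcκ : 0 < c * κ := mul_pos hW.c0 hk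
  have mW := Wt_memLp hcκ
  have hA0 := hW.C0
  set pz : Bool → ℝ → ℝ := fun b u => ∫ y, Z b u y * f y with hpz
  have mpz : ∀ b, Measurable (pz b) := fun b => pair_meas (mZ b) mf
  have hWf : Integrable (fun y => Wt (c * κ) y * |f y|) volume := mW.integrable_mul hf.abs
  set J := ∫ y, Wt (c * κ) y * |f y| with hJ
  have hJ0 : 0 ≤ J := integral_nonneg fun y => mul_nonneg (Wt_nonneg _ _) (abs_nonneg _)
  set B := 2 * A * J with hB
  have hB0 : 0 ≤ B := mul_nonneg (mul_nonneg zero_le_two hA0) hJ0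
  have bpz : ∀ b u, 0 < u → |pz b u| ≤ B * Real.exp (A * u) := by
    intro b u hu
    refine (pair_bound hWf (bZ b u hu)).trans (le_of_eq ?_)
    rw [hB]; ring
  have sys := pair_sys hI mW mZ bZ eZ hf
  -- superpositions
  set cf : Bool → ℝ → ℝ := fun b u => ep κ u * pz b u with hcf
  have mcf : ∀ b, Measurable (cf b) := fun b => (meas_ep κ).mul (mpz b)
  have bcf : ∀ b u, 0 < u → |cf b u| ≤ B * Real.exp (A * u) * ep κ u := by
    intro b u hu
    rw [hcf, abs_mul, abs_of_pos (ep_pos _ _), mul_comm]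
    exact mul_le_mul_of_nonneg_right (bpz b u hu) (ep_pos _ _).le
  have fin1 : ∫⁻ w in Set.Ioi (0 : ℝ), ENNReal.ofReal |cf true w| *
      (eLpNorm (Sl κ S w) 2 volume + eLpNorm (gl κ g1 w) 2 volume) < ⊤ :=
    sup_fin_gen hk hB0 hA0 (mul_nonneg hk.le hA0) (memLp_exp_norm hcκ 0) (memLp_exp_norm hcκ 0)
      (fun x => (Real.exp_pos _).le) (fun x => (Real.exp_pos _).le) (bcf true)
      (fun w hw x => hW.bSl hk hw x) (fun w hw x => by
        have := hW.bgl hk hw x
        rwa [← mul_assoc κ] at this)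
  have fin2 : ∫⁻ w in Set.Ioi (0 : ℝ), ENNReal.ofReal |cf false w| *
      (eLpNorm (Sr κ S' w) 2 volume + eLpNorm (gr κ g2 w) 2 volume) < ⊤ :=
    sup_fin_gen hk hB0 hA0 (mul_nonneg hk.le hA0) (memLp_exp_norm hcκ 1) (memLp_exp_norm hcκ 1)
      (fun x => (Real.exp_pos _).le) (fun x => (Real.exp_pos _).le) (bcf false)
      (fun w hw x => hW'.bSr hk hw x) (fun w hw x => by
        have := hW'.bgr hk hw x
        rwa [← mul_assoc κ] at this)
  have fin1' : ∫⁻ w in Set.Ioi (0 : ℝ), ENNReal.ofReal |cf true w| *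
      eLpNorm (Sl κ S w) 2 volume < ⊤ :=
    lt_of_le_of_lt (lintegral_mono fun w => by gcongr; exact le_self_add) fin1
  have fin2' : ∫⁻ w in Set.Ioi (0 : ℝ), ENNReal.ofReal |cf false w| *
      eLpNorm (Sr κ S' w) 2 volume < ⊤ :=
    lt_of_le_of_lt (lintegral_mono fun w => by gcongr; exact le_self_add) fin2
  have G1 := hG.2.2.2.2.2 (Sl κ S) (gl κ g1) (cf true) (hW.mSl κ) (hW.mgl κ) (mcf true)
    (fun u hu => hW.gradl hG hk hu) fin1
  have G2 := hG.2.2.2.2.2 (Sr κ S') (gr κ g2) (cf false) (hW'.mSr κ) (hW'.mgr κ) (mcf false)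
    (fun u hu => hW'.gradr hG hk hu) fin2
  set N1 : ℂ → ℝ := fun x => ∫ w in Set.Ioi (0 : ℝ), cf true w * Sl κ S w x with hN1
  set N2 : ℂ → ℝ := fun x => ∫ w in Set.Ioi (0 : ℝ), cf false w * Sr κ S' w x with hN2
  obtain ⟨⟨gH, hgH⟩, oH⟩ := hH.mem
  obtain ⟨⟨gu1, hgu1⟩, o1⟩ := h1.mem
  obtain ⟨⟨gu2, hgu2⟩, o2⟩ := h2.mem
  have Ga := hG.1 _ _ _ _ 1 1 hgu1 hgu2
  have Gb := hG.1 _ _ _ _ 1 (-1) Ga hgH
  have Gc := hG.1 _ _ _ _ (1 / Real.pi) (1 / Real.pi) G1 G2
  have Gv := hG.1 _ _ _ _ 1 1 Gb Gc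
  have iN1 := ae_intR (hW.mSl κ) (mcf true) fin1'
  have iN2 := ae_intR (hW'.mSr κ) (mcf false) fin2'
  have hsum : ∀ᵐ x, N1 x + N2 x = ∫ u in Set.Ioi (0 : ℝ), ep κ u *
        (Sl κ S u x * pz true u + Sr κ S' u x * pz false u) := by
    filter_upwards [iN1, iN2] with x j1 j2
    rw [hN1, hN2]
    simp only
    rw [← integral_add j1 j2]
    refine integral_congr_ae (ae_of_all _ fun u => ?_)
    simp only [hcf]
    ring
  have gr1 := (hGr β S hβ0 hβ hS κ hk f uH u1 hf hH).1 h1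
  have gr2 := (hGr β' S' hβ0' hβ' hS' κ hk f uH u2 hf hH).2 h2
  -- boundary values
  have bd : ∀ᵐ x, x ∉ Om β β' →
      1 * (1 * (1 * u1 x + 1 * u2 x) + -1 * uH x) + 1 * (1 / Real.pi * N1 x + 1 / Real.pi * N2 x)
        = 0 := by
    filter_upwards [oH, o1, o2, hsum, gr1, gr2] with x oH o1 o2 hsum gr1 gr2 hx
    have hN : 1 / Real.pi * N1 x + 1 / Real.pi * N2 x = 1 / Real.pi * ∫ u in Set.Ioi (0 : ℝ),
        ep κ u * (Sl κ S u x * pz true u + Sr κ S' u x * pz false u) := by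
      rw [← hsum]; ring
    rw [hN]
    rcases le_or_gt x.im 0 with hi | hi
    · have e0 : ∫ u in Set.Ioi (0 : ℝ),
          ep κ u * (Sl κ S u x * pz true u + Sr κ S' u x * pz false u) = 0 := by
        rw [setIntegral_congr_fun measurableSet_Ioi (g := fun _ => (0 : ℝ))]
        · simp
        · intro u hu
          simp only
          rw [wp_sl_out hS hk hu hi, wp_sr_out hS' hk hu hi]
          ring
      rw [e0, oH (not_lt.2 hi), o1 (fun h => not_lt.2 hi h.1), o2 (fun h => not_lt.2 hi h.1)]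
      ring
    · by_cases hx1 : x ∈ W1 β
      · have hx2 : x ∉ W2 β' := fun h => hx ⟨hx1, h⟩
        have hre := re_gt_of_not_W2 hβ0' hβ' hi hx2
        have hδ : 0 < κ * x.re := mul_pos hk (by linarith)
        have e1 : ∫ u in Set.Ioi (0 : ℝ),
            ep κ u * (Sl κ S u x * pz true u + Sr κ S' u x * pz false u)
            = ∫ u in Set.Ioi (0 : ℝ), dec u ((κ : ℂ) * x) * ∫ y, Sl κ S u y * f y := by
          rw [← bdry (meas_bb β) (hI.bq false) (bb_symm β) hk hδ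
            (e' := fun u => dec u ((κ : ℂ) * x)) (pz := pz false) (pz' := pz true)
            (ps := fun u => ∫ y, Sl κ S u y * f y)
            (meas_dec.comp (measurable_id.prodMk measurable_const)) (mpz false) (mpz true)
            (fun w _ => dec_bound (by simp)) (bpz false) (bpz true) (fun u hu => sys false u hu)]
          refine setIntegral_congr_fun measurableSet_Ioi fun u hu => ?_
          rw [wp_sl_right hS hk hu hi (by linarith), wp_sr_beyond hS' hk hu hi hx2, dec_eq']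
          have e2 : ∀ w, bb β u w * dec w ((κ : ℂ) * x)
              = bb β u w * ep κ w * EE w ((κ : ℂ) * (1 - (starRingEnd ℂ) x)) := by
            intro w; rw [dec_eq', mul_assoc]
          simp only [e2]
          ring
        rw [e1, ← gr1 (by linarith) hi, o2 hx2]
        ring
      · have hre := re_neg_of_not_W1 hβ0 hβ hi hx1
        have hδ : 0 < κ * (1 - x.re) := mul_pos hk (by linarith)
        have e1 : ∫ u in Set.Ioi (0 : ℝ),
            ep κ u * (Sl κ S u x * pz true u + Sr κ S' u x * pz false u)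
            = ∫ u in Set.Ioi (0 : ℝ), dec u ((κ : ℂ) * (1 - (starRingEnd ℂ) x))
              * ∫ y, Sr κ S' u y * f y := by
          rw [← bdry (meas_bb β') (hI.bq true) (bb_symm β') hk hδ
            (e' := fun u => dec u ((κ : ℂ) * (1 - (starRingEnd ℂ) x)))
            (pz := pz true) (pz' := pz false)
            (ps := fun u => ∫ y, Sr κ S' u y * f y)
            (meas_dec.comp (measurable_id.prodMk measurable_const)) (mpz true) (mpz false)
            (fun w _ => dec_bound (by simp)) (bpz true) (bpz false) (fun u hu => sys true u hu)]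
          refine setIntegral_congr_fun measurableSet_Ioi fun u hu => ?_
          rw [wp_sr_left hS' hk hu hi (by linarith), wp_sl_beyond hS hk hu hi hx1, dec_eq]
          have e2 : ∀ w, bb β' u w * dec w ((κ : ℂ) * (1 - (starRingEnd ℂ) x))
              = bb β' u w * ep κ w * EE w ((κ : ℂ) * x) := by
            intro w; rw [dec_eq, mul_assoc]
          simp only [e2]
          ring
        rw [e1, ← gr2 (by linarith) hi, o1 hx1]
        ring
  -- the equation
  have hv : Sol κ (Om β β') f (fun x => 1 * (1 * (1 * u1 x + 1 * u2 x) + -1 * uH x)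
      + 1 * (1 / Real.pi * N1 x + 1 / Real.pi * N2 x)) := by
    refine ⟨⟨⟨_, Gv⟩, bd⟩, fun φ hφ => ?_⟩
    have φ1 : φ ∈ Test (W1 β) := test_mono Set.inter_subset_left hφ
    have φ2 : φ ∈ Test (W2 β') := test_mono Set.inter_subset_right hφ
    have φH : φ ∈ Test Hh := test_mono (W1_sub β) φ1
    have hψ := test_memLp hφ κ
    have t1 := h1.eq φ φ1
    have t2 := h2.eq φ φ2
    have tH := hH.eq φ φH
    have s1 := test_split hφ κ (hW.mSl κ) (mcf true) fin1' (fun w hw => wp_harml hS hk hw φ1)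
    have s2 := test_split hφ κ (hW'.mSr κ) (mcf false) fin2' (fun w hw => wp_harmr hS' hk hw φ2)
    have i1 : Integrable (fun x => u1 x * (κ ^ 2 * φ x - lap φ x)) volume :=
      hgu1.memf.integrable_mul hψ
    have i2 : Integrable (fun x => u2 x * (κ ^ 2 * φ x - lap φ x)) volume :=
      hgu2.memf.integrable_mul hψ
    have iH : Integrable (fun x => uH x * (κ ^ 2 * φ x - lap φ x)) volume :=
      hgH.memf.integrable_mul hψ
    have j1 : Integrable (fun x => N1 x * (κ ^ 2 * φ x - lap φ x)) volume :=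
      G1.memf.integrable_mul hψ
    have j2 : Integrable (fun x => N2 x * (κ ^ 2 * φ x - lap φ x)) volume :=
      G2.memf.integrable_mul hψ
    have e : ∀ x, (1 * (1 * (1 * u1 x + 1 * u2 x) + -1 * uH x)
        + 1 * (1 / Real.pi * N1 x + 1 / Real.pi * N2 x)) * (κ ^ 2 * φ x - lap φ x)
        = (u1 x * (κ ^ 2 * φ x - lap φ x) + u2 x * (κ ^ 2 * φ x - lap φ x)
          - uH x * (κ ^ 2 * φ x - lap φ x)) + (1 / Real.pi * (N1 x * (κ ^ 2 * φ x - lap φ x))
          + 1 / Real.pi * (N2 x * (κ ^ 2 * φ x - lap φ x))) := by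
      intro x; ring
    have q1 : ∫ x, (u1 x * (κ ^ 2 * φ x - lap φ x) + u2 x * (κ ^ 2 * φ x - lap φ x))
        = (∫ x, u1 x * (κ ^ 2 * φ x - lap φ x)) + ∫ x, u2 x * (κ ^ 2 * φ x - lap φ x) :=
      integral_add i1 i2
    have q2 : ∫ x, (u1 x * (κ ^ 2 * φ x - lap φ x) + u2 x * (κ ^ 2 * φ x - lap φ x)
          - uH x * (κ ^ 2 * φ x - lap φ x))
        = (∫ x, (u1 x * (κ ^ 2 * φ x - lap φ x) + u2 x * (κ ^ 2 * φ x - lap φ x)))
          - ∫ x, uH x * (κ ^ 2 * φ x - lap φ x) :=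
      integral_sub (i1.add i2) iH
    have q3 : ∫ x, (1 / Real.pi * (N1 x * (κ ^ 2 * φ x - lap φ x))
          + 1 / Real.pi * (N2 x * (κ ^ 2 * φ x - lap φ x)))
        = (∫ x, 1 / Real.pi * (N1 x * (κ ^ 2 * φ x - lap φ x)))
          + ∫ x, 1 / Real.pi * (N2 x * (κ ^ 2 * φ x - lap φ x)) :=
      integral_add (j1.const_mul _) (j2.const_mul _)
    have q4 : ∫ x, ((u1 x * (κ ^ 2 * φ x - lap φ x) + u2 x * (κ ^ 2 * φ x - lap φ x)
          - uH x * (κ ^ 2 * φ x - lap φ x)) + (1 / Real.pi * (N1 x * (κ ^ 2 * φ x - lap φ x))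
          + 1 / Real.pi * (N2 x * (κ ^ 2 * φ x - lap φ x))))
        = (∫ x, (u1 x * (κ ^ 2 * φ x - lap φ x) + u2 x * (κ ^ 2 * φ x - lap φ x)
          - uH x * (κ ^ 2 * φ x - lap φ x)))
          + ∫ x, (1 / Real.pi * (N1 x * (κ ^ 2 * φ x - lap φ x))
          + 1 / Real.pi * (N2 x * (κ ^ 2 * φ x - lap φ x))) :=
      integral_add ((i1.add i2).sub iH) ((j1.const_mul _).add (j2.const_mul _))
    rw [integral_congr_ae (ae_of_all _ e), q4, q2, q1, q3, integral_const_mul, integral_const_mul,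
      t1, t2, tH, s1, s2]
    ring
  have huniq := (hR κ (Om β β') hk (Om_open β β') (Om_convex β β')
    (Om_nonempty hβ0 hβ hβ0' hβ')).2.1 f uO _ hf hO hv
  filter_upwards [huniq, hsum] with x h3 h4
  rw [← h4, h3]
  ring

theorem scat (hG : GrbStatement) (hR : ResStatement) (hGr : GreenStatement) : ScatStatement := by
  intro β β' S S' hβ0 hβ hβ0' hβ' hS hS'
  obtain ⟨g1, C1, c1, V1⟩ := wp_wc hS
  obtain ⟨g2, C2, c2, V2⟩ := wp_wc hS'
  set A := max C1 C2 with hA
  set c := min c1 c2 with hc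
  have hA0 : 0 ≤ A := V1.C0.trans (le_max_left _ _)
  have hc0 : 0 < c := lt_min V1.c0 V2.c0
  have hW : WC S g1 A c := V1.mono (le_max_left _ _) (min_le_left _ _) hc0
  have hW' : WC S' g2 A c := V2.mono (le_max_right _ _) (min_le_right _ _) hc0
  have k1 := K0_nonneg (β := β) hβ
  have k2 := K0_nonneg (β := β') hβ'
  set K := 2 * K0 β + 2 * K0 β' with hK
  have hK0 : 0 ≤ K := by positivity
  obtain ⟨κ0, hκ0, hκ⟩ := ep_small A (1 / (2 * (K + 1))) (by positivity)
  refine ⟨κ0, 2 * A, c, by linarith, hc0, fun κ hκκ => ?_⟩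
  have hk : 0 < κ := by linarith
  have hcκ : 0 < c * κ := mul_pos hc0 hk
  have hI : ItH (FF κ S S') (qq β β') κ A A K (Wt (c * κ)) := by
    refine ⟨hk, hA0, hA0, ?_, ?_, ?_, ?_, Wt_nonneg _, ?_⟩
    · rintro (_ | _)
      · exact hW.mSl κ
      · exact hW'.mSr κ
    · rintro (_ | _)
      · exact meas_bb β
      · exact meas_bb β'
    · rintro (_ | _) u hu y
      · refine (hW.bSl hk hu y).trans ?_
        refine mul_le_mul_of_nonneg_left ?_ (mul_nonneg hA0 (Real.exp_pos _).le)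
        exact le_add_of_nonneg_right (Real.exp_pos _).le
      · refine (hW'.bSr hk hu y).trans ?_
        refine mul_le_mul_of_nonneg_left ?_ (mul_nonneg hA0 (Real.exp_pos _).le)
        exact le_add_of_nonneg_left (Real.exp_pos _).le
    · rintro (_ | _) u w
      · exact (bb_bound hβ0 hβ u w).trans (by linarith)
      · exact (bb_bound hβ0' hβ' u w).trans (by linarith)
    · calc K * (∫ w in Set.Ioi (0 : ℝ), Real.exp (A * w) * ep κ w) ≤ K * (1 / (2 * (K + 1))) :=
          mul_le_mul_of_nonneg_left (hκ κ hκκ) hK0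
        _ ≤ 1 / 2 := by
          rw [mul_one_div, div_le_div_iff₀ (by positivity) (by norm_num)]
          linarith
  obtain ⟨Z, mZ, bZ, eZ⟩ := it_exists hI
  have bnd : ∀ b u, 0 < u → ∀ y, |Z b u y| ≤ 2 * A * Real.exp (2 * A * u) *
      (Real.exp (-(c * κ * ‖y‖)) + Real.exp (-(c * κ * ‖y - 1‖))) := by
    intro b u hu y
    have h1 := bZ b u hu y
    unfold Wt at h1
    rw [sub_zero] at h1
    refine h1.trans ?_
    refine mul_le_mul_of_nonneg_right ?_ (add_nonneg (Real.exp_pos _).le (Real.exp_pos _).le)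
    refine mul_le_mul_of_nonneg_left ?_ (by positivity)
    exact Real.exp_le_exp.2 (by nlinarith only [hA0, hu])
  refine ⟨Z true, Z false, ⟨mZ _, mZ _, bnd _, bnd _, fun u hu y => eZ true u hu y,
    fun u hu y => eZ false u hu y⟩, ?_⟩
  intro f uH u1 u2 uO hf hH h1 h2 hO
  -- measurable data
  set f' := hf.1.mk f with hf'
  have hff : f =ᵐ[volume] f' := hf.1.ae_eq_mk
  have mf' : Measurable f' := hf.1.stronglyMeasurable_mk.measurable
  have hmf' : MemLp f' 2 volume := (memLp_congr_ae hff).1 hf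
  have tr : ∀ {D : Set ℂ} {u : ℂ → ℝ}, Sol κ D f u → Sol κ D f' u := by
    intro D u h
    refine ⟨h.mem, fun φ hφ => ?_⟩
    rw [h.eq φ hφ]
    refine integral_congr_ae ?_
    filter_upwards [hff] with x hx
    rw [hx]
  have key := scat_core hG hR hGr hβ0 hβ hβ0' hβ' hS hS' hW hW' hk hI mZ bZ eZ mf' hmf'
    (tr hH) (tr h1) (tr h2) (tr hO)
  have ep1 : ∀ b u, ∫ y, Z b u y * f y = ∫ y, Z b u y * f' y := by
    intro b u
    refine integral_congr_ae ?_
    filter_upwards [hff] with x hx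
    rw [hx]
  simp only [ep1]
  exact key

end Pool.Agent.H16F.H51
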