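import Pool.Agent.Helper16_Fine.Stmt2

/-!
Tools for the modules FACT, SCAT, MAIN of squad FINE.
-/

namespace Pool.Agent.H16F.H51

open MeasureTheory Complex Filter Topology Pool.Agent.H16Iso Pool.Agent.H62T Pool.Agent.H16F
open scoped ENNReal NNReal

/-! ### The weights -/

lemma ep_pos (k u : ℝ) : 0 < ep k u := Real.exp_pos _

lemma ep_le_one {k : ℝ} (hk : 0 ≤ k) (u : ℝ) : ep k u ≤ 1 := by
  unfold ep
  rw [Real.exp_le_one_iff]
  have := Real.cosh_pos u
  nlinarith

lemma ep_anti {k k' : ℝ} (h : k ≤ k') (u : ℝ) : ep k' u ≤ ep k u := by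
  unfold ep
  apply Real.exp_le_exp.2
  have := Real.cosh_pos u
  nlinarith

lemma meas_ep (k : ℝ) : Measurable (ep k) := by
  unfold ep; fun_prop

lemma cosh_ge {u : ℝ} (hu : 0 ≤ u) : u ^ 2 / 4 ≤ Real.cosh u := by
  rw [Real.cosh_eq]
  have h1 := Real.quadratic_le_exp_of_nonneg hu
  have h2 := Real.exp_pos (-u)
  nlinarith

lemma cosh_le {u : ℝ} (hu : 0 ≤ u) : Real.cosh u ≤ Real.exp u := by
  rw [Real.cosh_eq]
  have : Real.exp (-u) ≤ Real.exp u := Real.exp_le_exp.2 (by linarith)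
  linarith

/-- `exp (C u) ep k u ≤ M exp (-u)` -/
lemma ep_bound {k : ℝ} (hk : 0 < k) (C : ℝ) {u : ℝ} (hu : 0 ≤ u) :
    Real.exp (C * u) * ep k u ≤ Real.exp ((C + 1) ^ 2 / k) * Real.exp (-u) := by
  unfold ep
  rw [← Real.exp_add, ← Real.exp_add]
  apply Real.exp_le_exp.2
  have h1 := cosh_ge hu
  have h2 : (C + 1) * u ≤ k * u ^ 2 / 4 + (C + 1) ^ 2 / k := by
    have h3 : 0 ≤ (k * u / 2 - (C + 1)) ^ 2 / k := by positivity
    have h4 : (k * u / 2 - (C + 1)) ^ 2 / k = k * u ^ 2 / 4 + (C + 1) ^ 2 / k - (C + 1) * u := by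
      field_simp; ring
    linarith
  nlinarith

lemma integrable_exp_neg : IntegrableOn (fun u : ℝ => Real.exp (-u)) (Set.Ioi 0) := by
  have := integrableOn_exp_mul_Ioi (a := -1) (by norm_num) 0
  simpa using this

lemma integrable_ep {k : ℝ} (hk : 0 < k) (C : ℝ) :
    IntegrableOn (fun u : ℝ => Real.exp (C * u) * ep k u) (Set.Ioi 0) := by
  refine Integrable.mono' (integrable_exp_neg.const_mul (Real.exp ((C + 1) ^ 2 / k))) ?_ ?_
  · exact ((by fun_prop : Measurable fun u : ℝ => Real.exp (C * u)).mul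
      (meas_ep k)).aestronglyMeasurable
  · filter_upwards [ae_restrict_mem measurableSet_Ioi] with u hu
    rw [Real.norm_of_nonneg (mul_nonneg (Real.exp_pos _).le (ep_pos _ _).le)]
    exact ep_bound hk C (Set.mem_Ioi.1 hu).le

/-- for large `k` the weighted integral is small -/
lemma ep_small (C : ℝ) (η : ℝ) (hη : 0 < η) : ∃ k0 : ℝ, 1 ≤ k0 ∧ ∀ k, k0 ≤ k →
    ∫ u in Set.Ioi (0 : ℝ), Real.exp (C * u) * ep k u ≤ η := by
  set J := ∫ u in Set.Ioi (0 : ℝ), Real.exp (C * u) * ep 1 u with hJ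
  have hJ0 : 0 ≤ J := integral_nonneg fun u => mul_nonneg (Real.exp_pos _).le (ep_pos _ _).le
  have ht : Tendsto (fun k : ℝ => Real.exp (-(k - 1)) * J) atTop (𝓝 (0 * J)) := by
    refine Tendsto.mul_const _ ?_
    exact Real.tendsto_exp_neg_atTop_nhds_zero.comp (tendsto_atTop_add_const_right _ _ tendsto_id)
  rw [zero_mul] at ht
  obtain ⟨k0, hk0⟩ := (((ht.eventually (gt_mem_nhds hη)).and (eventually_ge_atTop 1))).exists
  refine ⟨k0, hk0.2, fun k hk => ?_⟩
  have hk1 : 1 ≤ k := hk0.2.trans hk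
  calc ∫ u in Set.Ioi (0 : ℝ), Real.exp (C * u) * ep k u
      ≤ ∫ u in Set.Ioi (0 : ℝ), Real.exp (-(k - 1)) * (Real.exp (C * u) * ep 1 u) := by
        refine integral_mono (integrable_ep (by linarith) C)
          ((integrable_ep one_pos C).const_mul _) fun u => ?_
        have h1 : ep k u ≤ Real.exp (-(k - 1)) * ep 1 u := by
          unfold ep
          rw [← Real.exp_add]
          apply Real.exp_le_exp.2
          have := Real.one_le_cosh u
          nlinarith
        calc Real.exp (C * u) * ep k u ≤ Real.exp (C * u) * (Real.exp (-(k - 1)) * ep 1 u) :=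
              mul_le_mul_of_nonneg_left h1 (Real.exp_pos _).le
          _ = _ := by ring
    _ = Real.exp (-(k - 1)) * J := by rw [integral_const_mul]
    _ ≤ Real.exp (-(k0 - 1)) * J := by
        refine mul_le_mul_of_nonneg_right (Real.exp_le_exp.2 (by linarith)) hJ0
    _ ≤ η := hk0.1.le

/-! ### The kernels -/

lemma nu_pos {β : ℝ} (h : β < Real.pi / 3) : 0 < nu β := by
  unfold nu
  have := Real.pi_pos
  apply div_pos this
  linarith

lemma cos_nu {β : ℝ} (h0 : 0 < β) (h : β < Real.pi / 3) : Real.cos (2 * Real.pi * nu β) ≤ 0 := by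
  have hp := Real.pi_pos
  have hd : 0 < 2 * (Real.pi - β) := by linarith
  have e : 2 * Real.pi * nu β = Real.pi ^ 2 / (Real.pi - β) := by
    unfold nu
    have : Real.pi - β ≠ 0 := by linarith
    field_simp
  rw [e]
  apply Real.cos_nonpos_of_pi_div_two_le_of_le
  · rw [le_div_iff₀ (by linarith)]
    nlinarith
  · rw [div_le_iff₀ (by linarith)]
    nlinarith

/-- bound of the kernel -/
noncomputable def K0 (β : ℝ) : ℝ := nu β / Real.pi

lemma K0_nonneg {β : ℝ} (h : β < Real.pi / 3) : 0 ≤ K0 β :=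
  div_nonneg (nu_pos h).le Real.pi_pos.le

lemma KK_bound {β : ℝ} (h0 : 0 < β) (h : β < Real.pi / 3) (z : ℝ) : |KK β z| ≤ K0 β := by
  have h1 := cos_nu h0 h
  have h2 := Real.one_le_cosh (2 * nu β * z)
  have h3 : 1 ≤ Real.cosh (2 * nu β * z) - Real.cos (2 * Real.pi * nu β) := by linarith
  unfold KK K0
  rw [abs_div, abs_mul, abs_neg, abs_of_nonneg (div_nonneg (nu_pos h).le Real.pi_pos.le),
    abs_of_nonneg (by linarith : 0 ≤ Real.cosh (2 * nu β * z) - Real.cos (2 * Real.pi * nu β)),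
    div_le_iff₀ (by linarith)]
  have h4 : |Real.sin (2 * Real.pi * nu β)| ≤ 1 := Real.abs_sin_le_one _
  have h5 : 0 ≤ nu β / Real.pi := div_nonneg (nu_pos h).le Real.pi_pos.le
  calc nu β / Real.pi * |Real.sin (2 * Real.pi * nu β)| ≤ nu β / Real.pi * 1 :=
        mul_le_mul_of_nonneg_left h4 h5
    _ ≤ nu β / Real.pi * (Real.cosh (2 * nu β * z) - Real.cos (2 * Real.pi * nu β)) :=
        mul_le_mul_of_nonneg_left h3 h5

lemma bb_bound {β : ℝ} (h0 : 0 < β) (h : β < Real.pi / 3) (u w : ℝ) : |bb β u w| ≤ 2 * K0 β := by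
  unfold bb
  have h1 := KK_bound h0 h (u - w)
  have h2 := KK_bound h0 h (u + w)
  calc |KK β (u - w) - KK β (u + w)| ≤ |KK β (u - w)| + |KK β (u + w)| := abs_sub _ _
    _ ≤ _ := by linarith

lemma KK_even (β z : ℝ) : KK β (-z) = KK β z := by
  unfold KK
  rw [show 2 * nu β * -z = -(2 * nu β * z) by ring, Real.cosh_neg]

lemma bb_symm (β u w : ℝ) : bb β u w = bb β w u := by
  unfold bb
  rw [← KK_even β (u - w), neg_sub, add_comm u w]

lemma meas_KK (β : ℝ) : Measurable (KK β) := by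
  unfold KK
  fun_prop

lemma meas_bb (β : ℝ) : Measurable (Function.uncurry (bb β)) := by
  have h : Function.uncurry (bb β) = fun p : ℝ × ℝ => KK β (p.1 - p.2) - KK β (p.1 + p.2) := by
    ext p; rfl
  rw [h]
  exact ((meas_KK β).comp (measurable_fst.sub measurable_snd)).sub
    ((meas_KK β).comp (measurable_fst.add measurable_snd))

lemma meas_bb1 (β u : ℝ) : Measurable (bb β u) := by
  have h : bb β u = fun w : ℝ => KK β (u - w) - KK β (u + w) := by
    ext p; rfl
  rw [h]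
  exact ((meas_KK β).comp (measurable_const.sub measurable_id)).sub
    ((meas_KK β).comp (measurable_const.add measurable_id))

/-! ### Decaying functions -/

lemma integrable_exp_norm {c : ℝ} (hc : 0 < c) (a : ℂ) :
    Integrable (fun x : ℂ => Real.exp (-(c * ‖x - a‖))) volume := by
  suffices h : Integrable (fun x : ℂ => Real.exp (-(c * ‖x‖))) volume from
    h.comp_sub_right a
  have h1 : Integrable (fun x : ℂ => ((1 : ℝ) + ‖x‖) ^ (-(3 : ℝ))) volume :=
    integrable_one_add_norm (by rw [Complex.finrank_real_complex]; norm_num)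
  have hb : ∃ M : ℝ, ∀ r : ℝ, 0 ≤ r → Real.exp (-(c * r)) ≤ M * (1 + r) ^ (-(3 : ℝ)) := by
    refine ⟨Real.exp c * (6 / c ^ 3), fun r hr => ?_⟩
    have h2 : (c * (1 + r)) ^ 3 / (Nat.factorial 3 : ℕ) ≤ Real.exp (c * (1 + r)) :=
      Real.pow_div_factorial_le_exp _ (by positivity) 3
    rw [Real.rpow_neg (by positivity), show (3 : ℝ) = ((3 : ℕ) : ℝ) by norm_num, Real.rpow_natCast]
    have h3 : Real.exp (-(c * r)) = Real.exp c * (Real.exp (c * (1 + r)))⁻¹ := by
      rw [← Real.exp_neg, ← Real.exp_add]; congr 1; ring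
    rw [h3, mul_assoc]
    refine mul_le_mul_of_nonneg_left ?_ (Real.exp_pos _).le
    have h4 : 0 < (c * (1 + r)) ^ 3 / 6 := by positivity
    have h5 : (Real.exp (c * (1 + r)))⁻¹ ≤ ((c * (1 + r)) ^ 3 / 6)⁻¹ := by
      apply inv_anti₀ h4
      have : ((Nat.factorial 3 : ℕ) : ℝ) = 6 := by norm_num [Nat.factorial]
      rw [this] at h2
      exact h2
    refine h5.trans (le_of_eq ?_)
    have : (1 + r) ≠ 0 := by positivity
    field_simp
  obtain ⟨M, hM⟩ := hb
  refine Integrable.mono' (h1.const_mul M) (by fun_prop) ?_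
  filter_upwards with x
  rw [Real.norm_of_nonneg (Real.exp_pos _).le]
  exact hM _ (norm_nonneg _)

lemma memLp_exp_norm {c : ℝ} (hc : 0 < c) (a : ℂ) :
    MemLp (fun x : ℂ => Real.exp (-(c * ‖x - a‖))) 2 volume := by
  rw [memLp_two_iff_integrable_sq (by fun_prop)]
  have := integrable_exp_norm (c := 2 * c) (by linarith) a
  refine this.congr (ae_of_all _ fun x => ?_)
  simp only
  rw [← Real.exp_nat_mul]
  congr 1; push_cast; ring

lemma memLp_of_bound {E : Type*} [NormedAddCommGroup E] {f : ℂ → E} (hf : AEStronglyMeasurable f volume)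
    {A c : ℝ} (hc : 0 < c) (a : ℂ) (h : ∀ x, ‖f x‖ ≤ A * Real.exp (-(c * ‖x - a‖))) :
    MemLp f 2 volume := by
  refine ((memLp_exp_norm hc a).const_mul A).of_le hf ?_
  filter_upwards with x
  exact (h x).trans (le_abs_self _)

lemma eLpNorm_of_bound {E : Type*} [NormedAddCommGroup E] {f : ℂ → E}
    {A c : ℝ} (hA : 0 ≤ A) (a : ℂ) (h : ∀ x, ‖f x‖ ≤ A * Real.exp (-(c * ‖x - a‖))) :
    eLpNorm f 2 volume
      ≤ ENNReal.ofReal A * eLpNorm (fun x : ℂ => Real.exp (-(c * ‖x - a‖))) 2 volume := by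
  have h1 : eLpNorm f 2 volume ≤ eLpNorm (fun x : ℂ => A * Real.exp (-(c * ‖x - a‖))) 2 volume := by
    refine eLpNorm_mono_real fun x => h x
  refine h1.trans (le_of_eq ?_)
  have := eLpNorm_const_smul (μ := (volume : Measure ℂ)) A
    (fun x : ℂ => Real.exp (-(c * ‖x - a‖))) 2
  have e : (A • fun x : ℂ => Real.exp (-(c * ‖x - a‖)))
      = fun x : ℂ => A * Real.exp (-(c * ‖x - a‖)) := by
    ext x; simp
  rw [e] at this
  rw [this, Real.enorm_eq_ofReal hA]

/-- translation of the exponential does not change the norm -/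
lemma eLpNorm_exp_shift (c : ℝ) (a : ℂ) :
    eLpNorm (fun x : ℂ => Real.exp (-(c * ‖x - a‖))) 2 volume
      = eLpNorm (fun x : ℂ => Real.exp (-(c * ‖x‖))) 2 volume := by
  have hm : MeasurePreserving (fun x : ℂ => x - a) volume volume :=
    measurePreserving_sub_right volume a
  exact eLpNorm_comp_measurePreserving (g := fun x : ℂ => Real.exp (-(c * ‖x‖)))
    (by fun_prop) hm

end Pool.Agent.H16F.H51
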